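import Pool.Agent.helper54.CR.Main

set_option autoImplicit false

namespace Pool.Agent.helper84.Reserve.CloseReturns

open Pool.Agent.helper16.Multibrot

/-- The `j`-th point of the critical orbit of `z ^ n + c`. -/
def orbit (n : ℕ) (c : ℂ) (j : ℕ) : ℂ := (fun z : ℂ => z ^ n + c)^[j] 0

/-- The derivative at `c` of the `j`-th iterate of `z ^ n + c`. -/
noncomputable def mult (n : ℕ) (c : ℂ) (j : ℕ) : ℂ := deriv ((fun z : ℂ => z ^ n + c)^[j]) c

/-- `p` is a record close return of the critical orbit: `p ≥ 1`, `n |z_p| ^ n < |c|`, and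
`|(f ^ (p - 1))'(c)| / |z_p|` exceeds all its earlier values. -/
def RecordReturn (n : ℕ) (c : ℂ) (p : ℕ) : Prop :=
  1 ≤ p ∧ n * ‖orbit n c p‖ ^ n < ‖c‖ ∧ ∀ j, 1 ≤ j → j < p →
    ‖mult n c (j - 1)‖ / ‖orbit n c j‖ < ‖mult n c (p - 1)‖ / ‖orbit n c p‖

/-- The close return criterion for density of hyperbolicity. -/
theorem result : ∃ K C : ℝ, ∀ n : ℕ, 2 ≤ n → ∀ c ∈ multibrot n, K ≤ ‖mult n c 1‖ →
    (∀ N : ℕ, 1 ≤ N →
      (∀ p q : ℕ, q ≤ p → p ≤ N → RecordReturn n c q → RecordReturn n c p →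
        ‖mult n c q‖ * (‖orbit n c p‖ / ‖orbit n c q‖) ^ n ∉ Set.Icc (1 / K) K) →
      ∃ c' ∈ hyperbolic n, ‖c' - c‖ ≤ C * Real.log n / (N : ℝ) ^ 4) ∧
    ((∀ p q : ℕ, q ≤ p → RecordReturn n c q → RecordReturn n c p →
        ‖mult n c q‖ * (‖orbit n c p‖ / ‖orbit n c q‖) ^ n ∉ Set.Icc (1 / K) K) →
      c ∈ closure (hyperbolic n)) := by
  refine ⟨Pool.Agent.helper54.CR.KK, 10 ^ 9, fun n hn c hc hK => ?_⟩
  have hD : Pool.Agent.helper54.CR.KK ≤ n * ‖c‖ ^ (n - 1) := by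
    have h1 : mult n c 1 = n * c ^ (n - 1) := by
      rw [mult, Function.iterate_one, deriv_add_const]; simp
    rw [h1, norm_mul, norm_pow, Complex.norm_natCast] at hK
    exact hK
  exact ⟨fun N hN h => Pool.Agent.helper54.CR.criterion hn hc hD hN h,
    fun h => Pool.Agent.helper54.CR.criterion_closure hn hc hD h⟩

end Pool.Agent.helper84.Reserve.CloseReturns
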