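import Pool.Agent.helper9.TG.D

/-!
# Two-generated groups with an involution among the generators

Let `G = ⟨a, b⟩` be infinite with `a ^ 2 = 1` or `b ^ 2 = 1`. Then `⟨a, b ^ g⟩` is infinite for
infinitely many `g`, provided that one of the following holds:

* every finite system of inequations `w(x, y) ≠ 1` satisfied by `(a, b)` is satisfied by `(a, b ^ g)`
  for infinitely many `g`;
* `G` has a non-discrete Hausdorff group topology;
* `G` is residually finite.
-/

set_option autoImplicit false

namespace Pool.Agent.Results.MP_fd6eef_al.InvolutionGeneric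

theorem result {G : Type*} [Group G] [Infinite G] (a b : G)
    (hab : a ^ 2 = 1 ∨ b ^ 2 = 1)
    (hgen : Subgroup.closure ({a, b} : Set G) = ⊤)
    (h : (∀ S : Finset (FreeGroup (Fin 2)), (∀ w ∈ S, FreeGroup.lift ![a, b] w ≠ 1) →
          {g : G | ∀ w ∈ S, FreeGroup.lift ![a, g⁻¹ * b * g] w ≠ 1}.Infinite) ∨
      (∃ _ : TopologicalSpace G, IsTopologicalGroup G ∧ T2Space G ∧ ¬ DiscreteTopology G) ∨
      (∀ x : G, x ≠ 1 → ∃ N : Subgroup G, N.Normal ∧ N.FiniteIndex ∧ x ∉ N)) :
    {g : G | (Subgroup.closure ({a, g⁻¹ * b * g} : Set G) : Set G).Infinite}.Infinite := by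
  rw [pow_two, pow_two] at hab
  refine Pool.Agent.helper9.TG.infinite_of_involution' a b ?_ hab hgen
  rcases h with h | ⟨τ, h1, h2, h3⟩ | h
  · exact h
  · exact Pool.Agent.helper9.TG.gen_of_topology h3 a b
  · exact Pool.Agent.helper9.TG.gen_of_residuallyFinite a b h

end Pool.Agent.Results.MP_fd6eef_al.InvolutionGeneric
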