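import Pool.Agent.helper84.DM.FIN

/-!
# MP_4467b5_nt (density hypothesis): the density hypothesis for local averages

For a zero `ρ` of the Riemann zeta function and `H > 0`, `locAvg H ρ` is the average, with
multiplicity, of the distances `|Re ρ' - 1/2|` from the critical line, over the zeros `ρ'` in the
upper half plane with `|Im ρ' - Im ρ| ≤ H`.

`locN H σ T` is the number (with multiplicity) of the zeros `ρ` with `0 < Im ρ ≤ T` and
`σ - 1/2 ≤ locAvg H ρ`. For `H = 0` the average reduces to the distance of `ρ` itself (if no zero other than its mirror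
image has the same imaginary part) and `locN` to the number of zeros in the density hypothesis.

The theorem: `locN H σ T ≤ T ^ (2 (1 - σ) + ε)` for every fixed `H ≥ H₀(ε)`.
-/

set_option autoImplicit false

open Complex

namespace Pool.Agent.helper84.Reserve.MeanDensity

open Pool.Agent.helper84.DM

theorem result (ε : ℝ) (hε : 0 < ε) : ∃ H₀ : ℝ, 0 < H₀ ∧ ∀ H : ℝ, H₀ ≤ H → ∃ T₀ : ℝ, 0 < T₀ ∧
    ∀ T σ : ℝ, T₀ ≤ T → 1 / 2 ≤ σ → σ ≤ 1 → locN H σ T ≤ T ^ (2 * (1 - σ) + ε) :=
  ZV_final ε hε

end Pool.Agent.helper84.Reserve.MeanDensity
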