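import Pool.Agent.helper44.ProP

/-!
Let `G = ⟨a, b⟩`. If some finite index subgroup `H` of `G` has normal subgroups of index `p ^ e`
for a prime `p` and arbitrarily large `e` (that is, `H` has infinite pro-`p` completion), then
`⟨a, b ^ g⟩` is infinite for all `g` in a suitable normal subgroup of finite index.
-/

set_option autoImplicit false

namespace Pool.Agent.Results.MP_fd6eef_al.ProPQuotients

theorem result {G : Type*} [Group G] (a b : G)
    (hab : Subgroup.closure ({a, b} : Set G) = ⊤)
    (p : ℕ) (hp : p.Prime) (H : Subgroup G) [H.FiniteIndex]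
    (hH : ∀ m : ℕ, ∃ e : ℕ, m ≤ e ∧ ∃ U : Subgroup H, U.Normal ∧ U.index = p ^ e) :
    ∃ N : Subgroup G, N.Normal ∧ N.FiniteIndex ∧
      ∀ g ∈ N, (Subgroup.closure ({a, g⁻¹ * b * g} : Set G) : Set G).Infinite :=
  Pool.Agent.helper44.ProP.main_proP a b hab p hp H hH

end Pool.Agent.Results.MP_fd6eef_al.ProPQuotients
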