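import Pool.Agent.helper62.MS.All

/-!
# Mass of quantum limits on sets of dimension less than two is balanced by an absolutely continuous part

`M = Γ \ ℍ` is an arbitrary closed hyperbolic surface and `ν` an arbitrary weak limit of `|φ_k|² dz`, where the `φ_k` are `L²`-normalised eigenfunctions of the Laplacian with
eigenvalues `1/4 + s_k²`, `s_k → ∞`.

If `E` is a Borel set of dimension less than `2` (`H^(1+α)(E) = 0` for some `α < 1`) and `N` is a Borel set of area zero then `ν(E) + ν(N) ≤ 1`. So the absolutely continuous part of `ν` has mass at least `ν(E)`, and `ν(E) ≤ 1/2`.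

Proof. `ν` is the projection of a probability measure `μ` on `Γ \ SL(2, ℝ)` which is invariant under the geodesic flow, the limit of the squares of the coefficients of horocyclic wave packets. The part of `μ` over `E` has local entropy `≤ α/2`, the part over `N` local entropy `≤ 1/2` (energy estimate of Ledrappier and
Lindenstrauss), so they are covered by `e^((α/2+δ) n)`, resp. `e^((1/2+δ) n)` Bowen boxes of length `n`. The part `u` of `φ_k` localised in the first boxes at the time `log r - n - c` is spread over long stable horocyclic pieces at the time `0`; Schur's test for the kernel between wide and narrow packets shows that the mass of `u` on the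
set of points whose past of length `n` is in the second boxes is at most `C e^((α/2 + 1/2 + 2δ - 1) n) → 0`. The rest `φ_k - u` has mass `1 - ν(E)`.
-/

set_option autoImplicit false

open scoped MatrixGroups ContDiff Topology UpperHalfPlane
open UpperHalfPlane MeasureTheory Filter Set

namespace Pool.Agent.Results.MP_07c750_an.ScarDuality

open Pool.Agent

theorem result (Γ : Subgroup SL(2, ℝ)) (F : Set ℍ) (hΓ : QU.SurfaceGroup Γ)
    (hF : IsFundamentalDomain Γ F (volume : Measure ℍ))
    (s : ℕ → ℝ) (φ : ℕ → ℍ → ℂ) (hs : Tendsto s atTop atTop)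
    (hφ : ∀ k, RS.Eig Γ (s k) (φ k)) (h1 : ∀ k, ∫ z in F, ‖φ k z‖ ^ 2 = 1)
    (ν : Measure (EN.MG Γ)) (hν : IsFiniteMeasure ν)
    (hlim : ∀ V : EN.MG Γ → ℝ, Continuous V →
      Tendsto (fun k => ∫ z in F, V (EN.mkM Γ z) * ‖φ k z‖ ^ 2) atTop (𝓝 (∫ x, V x ∂ν)))
    (E N : Set (EN.MG Γ)) (hE : MeasurableSet E) (hN : MeasurableSet N)
    (hd : ∃ α : ℝ, α < 1 ∧ Measure.hausdorffMeasure (1 + α) {z : ℍ | EN.mkM Γ z ∈ E} = 0)
    (hN0 : volume {z : ℍ | EN.mkM Γ z ∈ N} = 0) :
    ν E + ν N ≤ 1 := by
  obtain ⟨α, h2, h3⟩ := hd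
  have h5 : ∃ α' : ℝ, 0 < α' ∧ α' < 1 ∧
      Measure.hausdorffMeasure (1 + α') {z : ℍ | EN.mkM Γ z ∈ E} = 0 := by
    refine ⟨max α (1 / 2), by positivity, max_lt h2 (by norm_num), ?_⟩
    have h6 : Measure.hausdorffMeasure (1 + max α (1 / 2)) {z : ℍ | EN.mkM Γ z ∈ E} ≤
        Measure.hausdorffMeasure (1 + α) {z : ℍ | EN.mkM Γ z ∈ E} :=
      Measure.hausdorffMeasure_mono (by linarith [le_max_left α (1 / 2)]) _
    exact le_antisymm (h6.trans h3.le) (zero_le)
  obtain ⟨α', ha, hb, hc⟩ := h5
  exact MS.A_DU1 Γ F s φ ν E N α' 1 hΓ hF hs hφ h1 hν hlim hE hN ha hb.le one_pos le_rfl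
    (by linarith) (Or.inr ⟨hb, hc⟩) (Or.inl ⟨rfl, hN0⟩)

end Pool.Agent.Results.MP_07c750_an.ScarDuality
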